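import Pool.Agent.Helper40.CY.Main

/-!
# MP_f2948c_co: the cyclic ordering conjecture holds for matroids of rank at most three

Let `M` be a matroid of rank at most three whose ground set is the disjoint union of `k ≥ 1` bases.
Then the ground set has a cyclic ordering in which every window of `|E| / k` consecutive elements
is a base.

Proof: by induction on `k`.  In a cyclic ordering of the union of the first `k - 1` bases there is a
place where the elements of the last base can be inserted, in a suitable order.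
-/

namespace Pool.Agent.Results.MP_f2948c_co.RankThree

open Set Pool.Agent.Helper40.CY

/-- The cyclic ordering conjecture (Kajitani, Ueno, Miyano) for matroids of rank at most three, for
every number `k` of bases. -/
theorem result {α : Type*} (M : Matroid α) (hr : M.eRank ≤ 3)
    (k : ℕ) (hk : 0 < k) (B : Fin k → Set α) (hB : ∀ i, M.IsBase (B i))
    (hdisj : ∀ i j, i ≠ j → Disjoint (B i) (B j)) (hcov : ⋃ i, B i = M.E) :
    ∃ σ : Fin M.E.ncard ≃ M.E, ∀ i : ℕ,
      M.IsBase {x | ∃ j < M.E.ncard / k, ∃ h : 0 < M.E.ncard,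
        x = σ ⟨(i + j) % M.E.ncard, Nat.mod_lt _ h⟩} := by
  obtain ⟨r, hrk⟩ : ∃ r : ℕ, M.eRank = r := by
    have : M.eRank ≠ ⊤ := fun h => by rw [h] at hr; exact absurd hr (by decide)
    exact ⟨M.eRank.toNat, (ENat.coe_toNat this).symm⟩
  have hr3 : r ≤ 3 := by rw [hrk] at hr; exact_mod_cast hr
  rcases Nat.eq_zero_or_pos r with hr0 | hr0
  · -- rank zero
    have hBe : ∀ i, B i = ∅ := by
      intro i
      rw [← encard_eq_zero, (hB i).encard_eq_eRank, hrk, hr0]
      rfl
    have hE : M.E = ∅ := by
      rw [← hcov]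
      simp [hBe]
    have hn : M.E.ncard = 0 := by rw [hE, ncard_empty]
    have : IsEmpty (Fin M.E.ncard) := by rw [hn]; infer_instance
    have : IsEmpty M.E := by rw [hE]; infer_instance
    refine ⟨Equiv.equivOfIsEmpty _ _, fun i => ?_⟩
    refine (congrArg M.IsBase ?_).mp (hB ⟨0, hk⟩)
    rw [hBe]
    ext x
    simp [hn]
  · obtain ⟨k, rfl⟩ : ∃ k', k = k' + 1 := ⟨k - 1, by omega⟩
    obtain ⟨c, hc⟩ := exists_ord hr0 hr3 hrk
      (fun i => if h : i < k + 1 then B ⟨i, h⟩ else ∅) k
      (fun i hi => by simp only [hi, dif_pos]; exact hB _)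
      (fun i hi j hj hij => by
        simp only [hi, hj, dif_pos]
        exact hdisj _ _ (by simpa [Fin.ext_iff] using hij))
    have hU : (⋃ i ∈ Set.Iio (k + 1), (if h : i < k + 1 then B ⟨i, h⟩ else ∅ : Set α)) = M.E := by
      rw [← hcov]
      ext a
      simp only [mem_iUnion, mem_Iio]
      constructor
      · rintro ⟨i, hi, ha⟩
        rw [dif_pos hi] at ha
        exact ⟨_, ha⟩
      · rintro ⟨i, ha⟩
        exact ⟨i, i.2, by rw [dif_pos i.2]; exact ha⟩
    rw [hU] at hc
    have hpos : 0 < r * (k + 1) := by positivity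
    -- the size of the ground set
    have hn : M.E.ncard = r * (k + 1) := by
      rw [← hc.img, hc.inj.ncard_image, ← Finset.coe_Iio, ncard_coe_finset, Nat.card_Iio]
    rw [hn]
    have hbij : Function.Bijective
        (fun i : Fin (r * (k + 1)) => (⟨c i, hc.mem hpos i⟩ : M.E)) := by
      constructor
      · intro i j hij
        have h1 : c i = c j := congrArg Subtype.val hij
        exact Fin.ext (hc.inj i.2 j.2 h1)
      · rintro ⟨a, ha⟩
        rw [← hc.img] at ha
        obtain ⟨i, hi, hia⟩ := ha
        exact ⟨⟨i, hi⟩, Subtype.ext hia⟩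
    refine ⟨Equiv.ofBijective _ hbij, fun i => ?_⟩
    refine (congrArg M.IsBase ?_).mp (hc.base i)
    rw [image_window, Nat.mul_div_cancel _ (by omega)]
    ext x
    constructor
    · rintro ⟨l, hl, rfl⟩
      exact ⟨l, hl, hpos, (hc.mod _).symm⟩
    · rintro ⟨l, hl, _, rfl⟩
      exact ⟨l, hl, (hc.mod _).symm⟩

end Pool.Agent.Results.MP_f2948c_co.RankThree
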